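import Pool.Agent.N495.GO.UJ
import Pool.Agent.N524.TS.SERRE

/-!
# MP_7e5527_ag: plane curves and pairs of isogenous elliptic curves, uniform and explicit bounds

The problem for `Γ\X⁺ = Y(1)²`, a curve `V` and the pairs `(j₁, j₂)` of invariants of curves isogenous to a
given elliptic curve `E` (the non-CM points of `Σ` for `M = GL₂` and the point given by `E`): for almost all
`E` over a number field `k` and EVERY curve `V` over EVERY finite extension `k'` of `k`, not a
horizontal or vertical line, the points of `V` in (the part of degree prime to some prime `p`, depending on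
`j(E)` only, of) `Σ` lie on the modular curves `T_n` with `n` in a finite set which is explicit and depends
only on the bidegree of `V` and the degree of `k'` over `k`, not on `E`, its height, `k` or the
coefficients of `V`.

Let `k` be a number field. The invariants `j ≠ 0, 1728` in `k`, of ALL heights, are ordered by the product
`radical j` of the norms of the primes (not dividing six) at which `j` reduces to `0`, `1728` or `∞`; there
are `X ^ (2 / 3 + o(1))` with `radical j ≤ X`.

**Theorem.** There is a set `J` of invariants in `k` which contains all but a proportion `X ^ (-ν)` of the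
invariants with `radical j ≤ X`, and for `j ∈ J` there is a prime `p`, such that the following holds for
EVERY finite extension `K` of `k`, EVERY elliptic curve `E` over `K` with invariant `j`, all cyclic
subgroups `C₁`, `C₂` of `E(K̄)` of orders `N₁`, `N₂`, stable under the Galois group of `K`, such that `p` does
not divide `N₁ N₂`, or `N₁ N₂` is a power of `p`, or `(N₁ N₂) ^ (2 [k : ℚ])` is at most the height of `j`,
EVERY field `k'` between `k` and `K`, of degree `D` over `k`, and EVERY polynomial `F(X, Y)` over `k'`: if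
`F(j₁, j₂) = 0`, where `j₁` and `j₂` are the invariants of `E / C₁` and `E / C₂`, and `F(j₁, Y) ≠ 0` and
`F(X, j₂) ≠ 0`, then

* `n₂ = [C₂ : C₁ ∩ C₂]` is at most `16 ^ ω(n₂) D deg_Y F`, all prime powers dividing `n₂` are at most
  `16 D deg_Y F`;
* `n₁ = [C₁ : C₁ ∩ C₂]` is at most `16 ^ ω(n₁) D deg_X F`, all prime powers dividing `n₁` are at most
  `16 D deg_X F`,

where `ω` is the number of prime divisors. (As `K` is arbitrary all points with coordinates isogenous to `E`
occur. `E / C₁` and `E / C₂` are connected by a cyclic isogeny of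
degree `n₁ n₂`, so `(j₁, j₂)` is on `T_n` for `n = n₁ n₂`. The quotients are given by
the equations of Vélu, with a Galois equivariant surjective homomorphism with kernel `C_i`.)

Proof. (a) For almost all `j` and all curves over `k` of invariant `j` the image of the Galois group in the
automorphism group of `E[n]` contains all automorphisms of determinant `1` for all `n` prime to a prime `p`
and all powers `n` of `p` (engine `Pool.Agent.Q19.SU` of helper19 and helper304, and Serre's lemma; see
MP_160b6c_nt.AlmostAllProducts). (b) The automorphisms of `k̄` over `k(j₂)` stabilize `C₂`: see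
MP_7e5527_ag.UniformGaloisOrbits. (c) Those which stabilize `C₁` fix `j₁`, by Vélu's formulas.
(d) The conjugates of `C₂` by the automorphisms in the image of determinant `1` which stabilize `C₁` are at
least `n₂ / 16 ^ ω(n₂)`: for each prime `l` use transvections, lower triangular matrices which are `1`
modulo the order of `C₁`, or diagonal matrices. By (c), (b) the conjugates of `j₂` by these automorphisms are
different, and roots of the conjugates over `k` of `F(j₁, Y)`.
-/

set_option autoImplicit false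

open NumberField IsDedekindDomain
open scoped Classical

namespace Pool.Agent.Results.MP_7e5527_ag.PlaneCurves

/-- The curve `y² = x³ + Ax + B` over `K`. -/
def curve {K : Type} [Field K] (A B : K) : WeierstrassCurve K := ⟨0, 0, 0, A, B⟩

/-- The group of its points over the algebraic closure of `K`. -/
abbrev Points {K : Type} [Field K] (A B : K) : Type :=
  ((curve A B).baseChange (AlgebraicClosure K)).toAffine.Point

/-- The action of an automorphism `σ` of the algebraic closure over `K` on the points. -/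
noncomputable def galois {K : Type} [Field K] (A B : K)
    (σ : AlgebraicClosure K ≃ₐ[K] AlgebraicClosure K) : Points A B →+ Points A B :=
  WeierstrassCurve.Affine.Point.map (σ : AlgebraicClosure K →ₐ[K] AlgebraicClosure K)

/-- The invariant of `y² = x³ + Ax + B`. -/
noncomputable def jInvariant {K : Type} [Field K] (A B : K) : K :=
  6912 * A ^ 3 / (4 * A ^ 3 + 27 * B ^ 2)

/-- the product of the norms of the primes not dividing six at which `j` reduces to `0`, `1728` or
`∞` -/
noncomputable def radical {K : Type} [Field K] [NumberField K] (j : K) : ℝ :=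
  ∏ᶠ v ∈ {v : HeightOneSpectrum (𝓞 K) | v.valuation K 6 = 1 ∧
    (v.valuation K j ≠ 1 ∨ v.valuation K (j - 1728) ≠ 1)}, (Ideal.absNorm v.asIdeal : ℝ)

/-- the invariants `j ≠ 0, 1728`, of whatever height, with `radical j ≤ X` -/
def Invariants (K : Type) [Field K] [NumberField K] (X : ℝ) : Set K :=
  {j | j ≠ 0 ∧ j ≠ 1728 ∧ radical j ≤ X}

/-- the first coordinate of a point, and `0` for the point at infinity -/
noncomputable def firstCoordinate {K : Type} [Field K] {A B : K} : Points A B → AlgebraicClosure K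
  | WeierstrassCurve.Affine.Point.zero => 0
  | WeierstrassCurve.Affine.Point.some x _ _ => x

/-- `E' : y² = x³ + A'x + B'` is the quotient of `E : y² = x³ + Ax + B` by a cyclic subgroup of order `N`
of the points over the algebraic closure which is stable under the Galois group of `K`, in Vélu's form, and
`f` is the quotient map: `f` is a surjective homomorphism of the groups of points over the algebraic
closure which commutes with the Galois group, its kernel is cyclic of order `N`, and `A' = A - 5t`,
`B' = B - 7w`, where `t` and `w` are the sums of `3x² + A` and of `5x³ + 3Ax + 2B` over the points `≠ 0` of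
the kernel, `x` being the first coordinate. -/
def IsQuotient {K : Type} [Field K] {A B A' B' : K} (N : ℕ) (f : Points A B →+ Points A' B') :
    Prop :=
  Function.Surjective f ∧
    (∀ (σ : AlgebraicClosure K ≃ₐ[K] AlgebraicClosure K) (P : Points A B),
      f (galois A B σ P) = galois A' B' σ (f P)) ∧
    IsAddCyclic f.ker ∧ Nat.card f.ker = N ∧
    algebraMap K (AlgebraicClosure K) A' = algebraMap K _ A -
      5 * ∑ᶠ Q ∈ (f.ker : Set (Points A B)) \ {0}, (3 * firstCoordinate Q ^ 2 + algebraMap K _ A) ∧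
    algebraMap K (AlgebraicClosure K) B' = algebraMap K _ B -
      7 * ∑ᶠ Q ∈ (f.ker : Set (Points A B)) \ {0}, (5 * firstCoordinate Q ^ 3 +
        3 * algebraMap K _ A * firstCoordinate Q + 2 * algebraMap K _ B)

/-- the polynomial `F(a, Y)`, for a polynomial `F(X, Y)` -/
noncomputable def fibre {k K : Type} [Field k] [Field K] [Algebra k K]
    (F : Polynomial (Polynomial k)) (a : K) : Polynomial K :=
  F.map (Polynomial.aeval a : Polynomial k →ₐ[k] K).toRingHom

/-- the polynomial `F(Y, X)` -/
noncomputable def exchange {k : Type} [Field k] (F : Polynomial (Polynomial k)) :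
    Polynomial (Polynomial k) := Polynomial.Bivariate.swap F

/-- The bounds, in terms of a degree `m`, for a positive integer `n`: it is at most `m` times `16` to the
number of its prime divisors, and all prime powers dividing it are at most `16 m`. -/
def IsSmall (n m : ℕ) : Prop :=
  0 < n ∧ n ≤ 16 ^ n.primeFactors.card * m ∧ ∀ l e : ℕ, l.Prime → l ^ e ∣ n → l ^ e ≤ 16 * m

/-- For all `j` in `J` there is a prime `p` such that for all finite extensions `K` of `k`, all elliptic
curves `E` over `K` with invariant `j`, all quotients `E₁`, `E₂` of `E` by cyclic subgroups `C₁`, `C₂` of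
orders `N₁`, `N₂` which are stable under the Galois group of `K` such that `p` does not divide `N₁ N₂`, or
`N₁ N₂` is a power of `p`, or `(N₁ N₂) ^ (2 [k : ℚ])` is at most the (relative, multiplicative) height of
`j`, and all polynomials `F(X, Y)` over a field `k'` between `k` and `K` such that `F(j(E₁), j(E₂)) = 0`, and
`F(j(E₁), Y)` and `F(X, j(E₂))` are not `0`: the indices of `C₁ ∩ C₂` in `C₂` and in `C₁` are bounded in
terms of `[k' : k]` times the degree of `F` in `Y` and in `X`, respectively. -/
def HasBoundedLevels (k : Type) [Field k] [NumberField k] (J : Set k) : Prop :=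
  ∀ j ∈ J, ∃ p : ℕ, p.Prime ∧
    ∀ (K : Type) [Field K] [NumberField K] [Algebra k K] [FiniteDimensional k K]
      (A B A₁ B₁ A₂ B₂ : K) (N₁ N₂ : ℕ) (f₁ : Points A B →+ Points A₁ B₁)
      (f₂ : Points A B →+ Points A₂ B₂) (k' : IntermediateField k K)
      (F : Polynomial (Polynomial k')),
      4 * A ^ 3 + 27 * B ^ 2 ≠ 0 → 4 * A₁ ^ 3 + 27 * B₁ ^ 2 ≠ 0 → 4 * A₂ ^ 3 + 27 * B₂ ^ 2 ≠ 0 →
      jInvariant A B = algebraMap k K j → 0 < N₁ → 0 < N₂ → IsQuotient N₁ f₁ → IsQuotient N₂ f₂ →
      (¬ p ∣ N₁ * N₂ ∨ (∃ m : ℕ, N₁ * N₂ = p ^ m) ∨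
        ((N₁ * N₂ : ℕ) : ℝ) ^ (2 * Module.finrank ℚ k) ≤ Height.mulHeight₁ j) →
      fibre F (jInvariant A₁ B₁) ≠ 0 → fibre (exchange F) (jInvariant A₂ B₂) ≠ 0 →
      (fibre F (jInvariant A₁ B₁)).eval (jInvariant A₂ B₂) = 0 →
        IsSmall (f₁.ker.relIndex f₂.ker) (Module.finrank k k' * F.natDegree) ∧
        IsSmall (f₂.ker.relIndex f₁.ker) (Module.finrank k k' * (exchange F).natDegree)

theorem inv_eq (K : Type) [Field K] [NumberField K] (X : ℝ) :
    Invariants K X = Pool.Agent.Q19.JL.Iv K X := by
  ext j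
  constructor
  · rintro ⟨h0, h1, h2⟩
    refine ⟨h0, h1, ?_⟩
    rw [← Pool.Agent.Q19.JL.rad_eq h0 h1]
    exact h2
  · rintro ⟨h0, h1, h2⟩
    refine ⟨h0, h1, ?_⟩
    rw [← Pool.Agent.Q19.JL.rad_eq h0 h1] at h2
    exact h2

theorem eval_exchange {k K : Type} [Field k] [Field K] [Algebra k K]
    (F : Polynomial (Polynomial k)) (a b : K) :
    (fibre (exchange F) b).eval a = (fibre F a).eval b := by
  have h : (Polynomial.eval₂RingHom (Polynomial.aeval b : Polynomial k →ₐ[k] K).toRingHom a).comp
      ((Polynomial.Bivariate.swap (R := k)) : Polynomial (Polynomial k) →+*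
        Polynomial (Polynomial k)) =
      Polynomial.eval₂RingHom (Polynomial.aeval a : Polynomial k →ₐ[k] K).toRingHom b := by
    refine Polynomial.ringHom_ext' (Polynomial.ringHom_ext ?_ ?_) ?_
    · intro r
      show Polynomial.eval₂ (Polynomial.aeval b : Polynomial k →ₐ[k] K).toRingHom a
        (Polynomial.Bivariate.swap (Polynomial.C (Polynomial.C r))) =
        Polynomial.eval₂ (Polynomial.aeval a : Polynomial k →ₐ[k] K).toRingHom b
        (Polynomial.C (Polynomial.C r))
      rw [Polynomial.Bivariate.swap_C_C, Polynomial.eval₂_C, Polynomial.eval₂_C]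
      simp
    · show Polynomial.eval₂ (Polynomial.aeval b : Polynomial k →ₐ[k] K).toRingHom a
        (Polynomial.Bivariate.swap (Polynomial.C Polynomial.X)) =
        Polynomial.eval₂ (Polynomial.aeval a : Polynomial k →ₐ[k] K).toRingHom b
        (Polynomial.C Polynomial.X)
      rw [Polynomial.Bivariate.swap_X, Polynomial.eval₂_X, Polynomial.eval₂_C]
      simp
    · show Polynomial.eval₂ (Polynomial.aeval b : Polynomial k →ₐ[k] K).toRingHom a
        (Polynomial.Bivariate.swap Polynomial.X) =
        Polynomial.eval₂ (Polynomial.aeval a : Polynomial k →ₐ[k] K).toRingHom b Polynomial.X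
      rw [Polynomial.Bivariate.swap_Y, Polynomial.eval₂_X, Polynomial.eval₂_C]
      simp
  have h1 := congrArg (fun φ => φ F) h
  unfold fibre exchange
  rw [Polynomial.eval_map, Polynomial.eval_map]
  exact h1

theorem first_eq {K : Type} [Field K] {A B : K} :
    (firstCoordinate : Points A B → AlgebraicClosure K) = Pool.Agent.N495.GO.xc := by
  funext Q
  rcases Q with _ | ⟨x, y, h⟩ <;> rfl

/-- generators of the kernels -/
theorem kernel_generator {K : Type} [Field K] {A B A' B' : K} {N : ℕ}
    {f : Points A B →+ Points A' B'} (h : IsQuotient N f) :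
    ∃ y : Points A B, f.ker = AddSubgroup.zmultiples y ∧ addOrderOf y = N ∧
      (∀ x, f x = 0 ↔ x ∈ AddSubgroup.zmultiples y) ∧
      algebraMap K (AlgebraicClosure K) A' = algebraMap K _ A -
        5 * Pool.Agent.N495.GO.ts (algebraMap K _ A) (AddSubgroup.zmultiples y : Set (Points A B)) ∧
      algebraMap K (AlgebraicClosure K) B' = algebraMap K _ B -
        7 * Pool.Agent.N495.GO.ws (algebraMap K _ A) (algebraMap K _ B)
          (AddSubgroup.zmultiples y : Set (Points A B)) := by
  obtain ⟨-, -, hcyc, hcard, hA, hB⟩ := h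
  obtain ⟨y', hy'⟩ := hcyc.exists_generator
  have hgen : ∀ x, f x = 0 ↔ x ∈ AddSubgroup.zmultiples (y' : Points A B) := by
    intro x
    constructor
    · intro hx
      obtain ⟨m, hm⟩ := AddSubgroup.mem_zmultiples_iff.1 (hy' ⟨x, hx⟩)
      refine AddSubgroup.mem_zmultiples_iff.2 ⟨m, ?_⟩
      have := congrArg Subtype.val hm
      simpa using this
    · intro hx
      obtain ⟨m, rfl⟩ := AddSubgroup.mem_zmultiples_iff.1 hx
      have h0 : f (y' : Points A B) = 0 := y'.2
      rw [map_zsmul, h0]
      exact zsmul_zero m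
  have hker : f.ker = AddSubgroup.zmultiples (y' : Points A B) := by
    ext x
    exact hgen x
  refine ⟨y', hker, ?_, hgen, ?_, ?_⟩
  · rw [← hcard, ← addOrderOf_eq_card_of_forall_mem_zmultiples hy', AddSubgroup.addOrderOf_coe]
  · rw [hker, first_eq] at hA
    exact hA
  · rw [hker, first_eq] at hB
    exact hB

/-- **Theorem.** -/
theorem result (k : Type) [Field k] [NumberField k] :
    ∃ J : Set k, HasBoundedLevels k J ∧
      (∃ ν X₀ : ℝ, 0 < ν ∧ ∀ X : ℝ, X₀ ≤ X →
        (({j | j ∈ Invariants k X ∧ j ∉ J} : Set k).ncard : ℝ) ≤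
          X ^ (-ν) * (Invariants k X).ncard) ∧
      ∀ δ : ℝ, 0 < δ → ∃ X₀ : ℝ, ∀ X : ℝ, X₀ ≤ X → (Invariants k X).Finite ∧
        X ^ (2 / 3 - δ) ≤ ((Invariants k X).ncard : ℝ) ∧
        ((Invariants k X).ncard : ℝ) ≤ X ^ (2 / 3 + δ) := by
  refine ⟨{j | (∃ p, Pool.Agent.N495.GO.UJ p j) ∧ Pool.Agent.Q19.SU.AllSLn (1 / 2) j}, ?_, ?_, ?_⟩
  · rintro j ⟨⟨p, hp⟩, hall⟩
    refine ⟨p, hp.1, ?_⟩
    intro K _ _ _ _ A B A₁ B₁ A₂ B₂ N₁ N₂ f₁ f₂ k' F hD hD₁ hD₂ hjv hN₁ hN₂ hf₁ hf₂ hN hF hF' hr
    obtain ⟨y₁, k₁, o₁, g₁, a₁, b₁⟩ := kernel_generator hf₁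
    obtain ⟨y₂, k₂, o₂, g₂, a₂, b₂⟩ := kernel_generator hf₂
    have hlev : ∀ A₀ B₀ : k, 4 * A₀ ^ 3 + 27 * B₀ ^ 2 ≠ 0 → Pool.Agent.Y673.Loc.jv A₀ B₀ = j →
        Pool.Agent.N495.TS.LQ A₀ B₀ ∧ Pool.Agent.Q19.SU.HasSLn A₀ B₀ (N₁ * N₂) := by
      intro A₀ B₀ h0 hj0
      refine ⟨hp.lq h0 hj0, ?_⟩
      have hpos : 0 < N₁ * N₂ := Nat.mul_pos hN₁ hN₂
      rcases hN with h | ⟨m, hm⟩ | h
      · exact (hp.2 A₀ B₀ h0 hj0).1 _ hpos h
      · rw [hm]
        exact (hp.2 A₀ B₀ h0 hj0).2 m
      · refine hall A₀ B₀ h0 hj0 _ hpos (Or.inr (Or.inl ?_))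
        have hNR : (0 : ℝ) < ((N₁ * N₂ : ℕ) : ℝ) := by exact_mod_cast hpos
        have e4 := Real.log_le_log (by positivity) h
        rw [Real.log_pow] at e4
        have e5 : Real.log (Height.mulHeight₁ j) = Pool.Agent.W223.AK.ht j := by
          rw [← Pool.Agent.Q19.SU.logH]
          rfl
        rw [e5] at e4
        push_cast at e4 ⊢
        linarith
    have hr' : (fibre (exchange F) (jInvariant A₂ B₂)).eval (jInvariant A₁ B₁) = 0 := by
      rw [eval_exchange]
      exact hr
    have r₂ := Pool.Agent.N495.GO.go_pair2 k K hD hD₁ hD₂ hN₁ hN₂ hlev hjv f₂ hf₂.1 hf₂.2.1 g₂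
      o₁ o₂ a₁ b₁ (k' := k') (F := F) hF hr
    have r₁ := Pool.Agent.N495.GO.go_pair2 k K hD hD₂ hD₁ hN₂ hN₁
      (fun A₀ B₀ h0 hj0 => by rw [mul_comm]; exact hlev A₀ B₀ h0 hj0) hjv f₁ hf₁.1 hf₁.2.1 g₁
      o₂ o₁ a₂ b₂ (k' := k') (F := exchange F) hF' hr'
    have pos : ∀ (y z : Points A B), addOrderOf z ≠ 0 →
        0 < (AddSubgroup.zmultiples y).relIndex (AddSubgroup.zmultiples z) := by
      intro y z hz
      refine Nat.pos_of_ne_zero fun h0 => hz ?_
      have h1 := Pool.Agent.N495.GO.relIndex_dvd (H := AddSubgroup.zmultiples y) (y := z)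
        (n := addOrderOf z) (by
          rw [natCast_zsmul, addOrderOf_nsmul_eq_zero]
          exact AddSubgroup.zero_mem _)
      rw [h0] at h1
      exact Nat.eq_zero_of_zero_dvd h1
    rw [k₁, k₂]
    exact ⟨⟨pos y₁ y₂ (by rw [o₂]; exact hN₂.ne'), r₂.2, fun l e hl h => r₂.1 l e hl h⟩,
      ⟨pos y₂ y₁ (by rw [o₁]; exact hN₁.ne'), r₁.2, fun l e hl h => r₁.1 l e hl h⟩⟩
  · obtain ⟨ν, X₀, hν, -, h⟩ := Pool.Agent.Q19.SU.n_prop k (1 / 2) 1 (by norm_num)
    refine ⟨ν, X₀, hν, fun X hX => ?_⟩
    rw [inv_eq]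
    refine h X hX _ (fun j hj => hj.1) fun j hj hcon => hj.2 ⟨?_, hcon.1⟩
    refine Pool.Agent.N495.GO.uj_of Pool.Agent.N524.TS.t_SERRE hj.1.1 hcon.1 ?_
    have h1 := hcon.2.1
    have h2 := hcon.2.2
    linarith
  · intro δ hδ
    obtain ⟨X1, hX1, h1⟩ := Pool.Agent.Q19.JL.Iv_upper k δ hδ
    obtain ⟨X2, hX2, h2⟩ := Pool.Agent.Q19.JL.Iv_lower k δ hδ
    refine ⟨max X1 X2, fun X hX => ?_⟩
    rw [inv_eq]
    exact ⟨Pool.Agent.Q19.JL.Iv_fin k (hX1.trans ((le_max_left _ _).trans hX)),
      h2 X ((le_max_right _ _).trans hX), h1 X ((le_max_left _ _).trans hX)⟩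

end Pool.Agent.Results.MP_7e5527_ag.PlaneCurves
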