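import Pool.Agent.N495.GO.Sol2
import Pool.Agent.N524.TS.SERRE

/-!
# MP_7e5527_ag: mixed points on plane curves, and degrees over the maximal solvable extension

For `M = GL₂`, a point `x` without complex multiplication and `Γ\X⁺ = Y(1)²` the set `Σ` of the problem
consists of the pairs whose coordinates are singular invariants (CM) or invariants of curves isogenous to
the given curve `E`. Here we treat the mixed points `(z, j')` of a curve `V`, `z` singular and `j'` the
invariant of a curve `E'` isogenous to `E`; more generally `z` may be any number in the maximal solvable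
extension of the number field `k`, as singular invariants are.

Let `k` be a number field. The invariants `j ≠ 0, 1728` in `k`, of ALL heights, are ordered by the product
`radical j` of the norms of the primes (not dividing six) at which `j` reduces to `0`, `1728` or `∞`; there
are `X ^ (2 / 3 + o(1))` with `radical j ≤ X`.

**Theorem.** There is a set `J` of invariants in `k` which contains all but a proportion `X ^ (-ν)` of the
invariants with `radical j ≤ X`, and for `j ∈ J` there is a prime `p`, such that the following holds for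
EVERY finite extension `K` of `k`, all elliptic curves `E` and `E'` over `K` such that `j(E) = j`, EVERY
isogeny `E → E'` over `K` with cyclic kernel of order `N` prime to `6`, such that `p` does not divide `N`,
or `N` is a power of `p`, or `N ^ (2 [k : ℚ])` is at most the height of `j`, every `z` in `K` whose Galois
group over `k` is solvable, EVERY field `k'` between `k` and `K` and EVERY polynomial `F(X, Y)` over `k'`: if
`F(z, j(E')) = 0` and `F(z, Y) ≠ 0` then `N ≤ [k' : k] deg_Y F`.

So the mixed points (with `N` as above) of every curve `V` over `k'` are on finitely many vertical lines,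
given by the curves `E'` with `N ≤ [k' : k] deg_Y F`, whatever `V`, `E` and `k` are. In other words, if `S`
is the maximal solvable extension of `k`, then `[S(j(E')) : S] ≥ N`, and `[k'S(j(E')) : k'S] ≥ N / [k' : k]`
for all finite extensions `k'` of `k`. (`2` and `3` have to be excluded: the invariants of curves connected
with `E` by isogenies of degree `2 ^ a 3 ^ b` are in `S`.)

Proof. (a) For almost all `j` and all curves over `k` of invariant `j` the image of the Galois group in the
automorphism group of `E[n]` contains all automorphisms of determinant `1` for all `n` prime to a prime `p`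
and all powers `n` of `p` (engine `Pool.Agent.Q19.SU` of helper19 and helper304, and Serre's lemma; see
MP_160b6c_nt.AlmostAllProducts). (b) If `n` is prime to `6` the transvections are commutators of products of
transvections; so all members of the derived series of the Galois group, and some member fixes `z`, contain
elements which act on `E[n]` as given transvections. (c) The conjugates of a cyclic subgroup of order `N` by
these elements are at least `N`. (d) The automorphisms over `k(j(E'))` stabilize the kernel of
`E → E'`: see MP_7e5527_ag.UniformGaloisOrbits. So `j(E')` has at least `N` conjugates by automorphisms which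
fix `z`, and these are roots of the conjugates over `k` of `F(z, Y)`.
-/

set_option autoImplicit false

open NumberField IsDedekindDomain
open scoped Classical

namespace Pool.Agent.Results.MP_7e5527_ag.SolvableCoordinates

/-- The curve `y² = x³ + Ax + B` over `K`. -/
def curve {K : Type} [Field K] (A B : K) : WeierstrassCurve K := ⟨0, 0, 0, A, B⟩

/-- The group of its points over the algebraic closure of `K`. -/
abbrev Points {K : Type} [Field K] (A B : K) : Type :=
  ((curve A B).baseChange (AlgebraicClosure K)).toAffine.Point

/-- The action of an automorphism `σ` of the algebraic closure over `K` on the points. -/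
noncomputable def galois {K : Type} [Field K] (A B : K)
    (σ : AlgebraicClosure K ≃ₐ[K] AlgebraicClosure K) : Points A B →+ Points A B :=
  WeierstrassCurve.Affine.Point.map (σ : AlgebraicClosure K →ₐ[K] AlgebraicClosure K)

/-- The invariant of `y² = x³ + Ax + B`. -/
noncomputable def jInvariant {K : Type} [Field K] (A B : K) : K :=
  6912 * A ^ 3 / (4 * A ^ 3 + 27 * B ^ 2)

/-- the product of the norms of the primes not dividing six at which `j` reduces to `0`, `1728` or
`∞` -/
noncomputable def radical {K : Type} [Field K] [NumberField K] (j : K) : ℝ :=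
  ∏ᶠ v ∈ {v : HeightOneSpectrum (𝓞 K) | v.valuation K 6 = 1 ∧
    (v.valuation K j ≠ 1 ∨ v.valuation K (j - 1728) ≠ 1)}, (Ideal.absNorm v.asIdeal : ℝ)

/-- the invariants `j ≠ 0, 1728`, of whatever height, with `radical j ≤ X` -/
def Invariants (K : Type) [Field K] [NumberField K] (X : ℝ) : Set K :=
  {j | j ≠ 0 ∧ j ≠ 1728 ∧ radical j ≤ X}

/-- The property of an isogeny over `K` with cyclic kernel of order `N`, from `y² = x³ + Ax + B` to
`y² = x³ + A'x + B'`: a homomorphism of the groups of points over the algebraic closure which is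
surjective, commutes with the Galois group, and has a cyclic kernel of order `N`. -/
def IsCyclicIsogeny {K : Type} [Field K] {A B A' B' : K} (N : ℕ) (f : Points A B →+ Points A' B') :
    Prop :=
  Function.Surjective f ∧
    (∀ (σ : AlgebraicClosure K ≃ₐ[K] AlgebraicClosure K) (P : Points A B),
      f (galois A B σ P) = galois A' B' σ (f P)) ∧
    IsAddCyclic f.ker ∧ Nat.card f.ker = N

/-- The Galois group of the splitting field over `k` of the minimal polynomial of `z` is solvable. -/
def HasSolvableGroup (k : Type) [Field k] {K : Type} [Field K] [Algebra k K] (z : K) : Prop :=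
  Group.IsSolvable (minpoly k z).Gal

/-- the polynomial `F(a, Y)`, for a polynomial `F(X, Y)` -/
noncomputable def fibre {k K : Type} [Field k] [Field K] [Algebra k K]
    (F : Polynomial (Polynomial k)) (a : K) : Polynomial K :=
  F.map (Polynomial.aeval a : Polynomial k →ₐ[k] K).toRingHom

/-- For all `j` in `J` there is a prime `p` such that for all finite extensions `K` of `k`, all elliptic
curves `E` and `E'` over `K` with `j(E) = j`, all isogenies `E → E'` over `K` with cyclic kernel of order
`N` prime to `6` such that `p` does not divide `N`, or `N` is a power of `p`, or `N ^ (2 [k : ℚ])` is at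
most the (relative, multiplicative) height of `j`, all `z` in `K` with solvable Galois group over `k` and
all polynomials `F(X, Y)` over a field `k'` between `k` and `K` such that `F(z, j(E')) = 0` and `F(z, Y)` is
not `0`: the degree `N` is at most `[k' : k]` times the degree of `F` in `Y`. -/
def HasBoundedMixedPoints (k : Type) [Field k] [NumberField k] (J : Set k) : Prop :=
  ∀ j ∈ J, ∃ p : ℕ, p.Prime ∧
    ∀ (K : Type) [Field K] [NumberField K] [Algebra k K] [FiniteDimensional k K]
      (A B A' B' : K) (N : ℕ) (f : Points A B →+ Points A' B') (z : K) (k' : IntermediateField k K)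
      (F : Polynomial (Polynomial k')),
      4 * A ^ 3 + 27 * B ^ 2 ≠ 0 → 4 * A' ^ 3 + 27 * B' ^ 2 ≠ 0 →
      jInvariant A B = algebraMap k K j → 0 < N → IsCyclicIsogeny N f → ¬ 2 ∣ N → ¬ 3 ∣ N →
      (¬ p ∣ N ∨ (∃ m : ℕ, N = p ^ m) ∨
        (N : ℝ) ^ (2 * Module.finrank ℚ k) ≤ Height.mulHeight₁ j) →
      HasSolvableGroup k z → fibre F z ≠ 0 → (fibre F z).eval (jInvariant A' B') = 0 →
        N ≤ Module.finrank k k' * F.natDegree

theorem inv_eq (K : Type) [Field K] [NumberField K] (X : ℝ) :
    Invariants K X = Pool.Agent.Q19.JL.Iv K X := by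
  ext j
  constructor
  · rintro ⟨h0, h1, h2⟩
    refine ⟨h0, h1, ?_⟩
    rw [← Pool.Agent.Q19.JL.rad_eq h0 h1]
    exact h2
  · rintro ⟨h0, h1, h2⟩
    refine ⟨h0, h1, ?_⟩
    rw [← Pool.Agent.Q19.JL.rad_eq h0 h1] at h2
    exact h2

/-- **Theorem.** -/
theorem result (k : Type) [Field k] [NumberField k] :
    ∃ J : Set k, HasBoundedMixedPoints k J ∧
      (∃ ν X₀ : ℝ, 0 < ν ∧ ∀ X : ℝ, X₀ ≤ X →
        (({j | j ∈ Invariants k X ∧ j ∉ J} : Set k).ncard : ℝ) ≤
          X ^ (-ν) * (Invariants k X).ncard) ∧
      ∀ δ : ℝ, 0 < δ → ∃ X₀ : ℝ, ∀ X : ℝ, X₀ ≤ X → (Invariants k X).Finite ∧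
        X ^ (2 / 3 - δ) ≤ ((Invariants k X).ncard : ℝ) ∧
        ((Invariants k X).ncard : ℝ) ≤ X ^ (2 / 3 + δ) := by
  refine ⟨{j | (∃ p, Pool.Agent.N495.GO.UJ p j) ∧ Pool.Agent.Q19.SU.AllSLn (1 / 2) j}, ?_, ?_, ?_⟩
  · rintro j ⟨⟨p, hp⟩, hall⟩
    refine ⟨p, hp.1, ?_⟩
    intro K _ _ _ _ A B A' B' N f z k' F hD hD' hjv hN ⟨hf, hfe, hcyc, hcard⟩ h2 h3 hlev hz hF hr
    obtain ⟨y', hy'⟩ := hcyc.exists_generator
    have hgen : ∀ x, f x = 0 ↔ x ∈ AddSubgroup.zmultiples (y' : Points A B) := by
      intro x
      constructor
      · intro hx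
        obtain ⟨m, hm⟩ := AddSubgroup.mem_zmultiples_iff.1 (hy' ⟨x, hx⟩)
        refine AddSubgroup.mem_zmultiples_iff.2 ⟨m, ?_⟩
        have := congrArg Subtype.val hm
        simpa using this
      · intro hx
        obtain ⟨m, rfl⟩ := AddSubgroup.mem_zmultiples_iff.1 hx
        have h0 : f (y' : Points A B) = 0 := y'.2
        rw [map_zsmul, h0]
        exact zsmul_zero m
    have hord : addOrderOf (y' : Points A B) = N := by
      rw [← hcard, ← addOrderOf_eq_card_of_forall_mem_zmultiples hy', AddSubgroup.addOrderOf_coe]
    refine Pool.Agent.N495.GO.go_sol k K hD hD' hN h2 h3 (j := j) ?_ hjv f hf hfe hgen hord hz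
      (k' := k') (F := F) hF hr
    intro A₀ B₀ h0 hj0
    refine ⟨hp.lq h0 hj0, ?_⟩
    rcases hlev with h | ⟨m, hm⟩ | h
    · exact (hp.2 A₀ B₀ h0 hj0).1 _ hN h
    · rw [hm]
      exact (hp.2 A₀ B₀ h0 hj0).2 m
    · refine hall A₀ B₀ h0 hj0 _ hN (Or.inr (Or.inl ?_))
      have hNR : (0 : ℝ) < (N : ℝ) := by exact_mod_cast hN
      have e4 := Real.log_le_log (by positivity) h
      rw [Real.log_pow] at e4
      have e5 : Real.log (Height.mulHeight₁ j) = Pool.Agent.W223.AK.ht j := by
        rw [← Pool.Agent.Q19.SU.logH]
        rfl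
      rw [e5] at e4
      push_cast at e4 ⊢
      linarith
  · obtain ⟨ν, X₀, hν, -, h⟩ := Pool.Agent.Q19.SU.n_prop k (1 / 2) 1 (by norm_num)
    refine ⟨ν, X₀, hν, fun X hX => ?_⟩
    rw [inv_eq]
    refine h X hX _ (fun j hj => hj.1) fun j hj hcon => hj.2 ⟨?_, hcon.1⟩
    refine Pool.Agent.N495.GO.uj_of Pool.Agent.N524.TS.t_SERRE hj.1.1 hcon.1 ?_
    have h1 := hcon.2.1
    have h2 := hcon.2.2
    linarith
  · intro δ hδ
    obtain ⟨X1, hX1, h1⟩ := Pool.Agent.Q19.JL.Iv_upper k δ hδ
    obtain ⟨X2, hX2, h2⟩ := Pool.Agent.Q19.JL.Iv_lower k δ hδ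
    refine ⟨max X1 X2, fun X hX => ?_⟩
    rw [inv_eq]
    exact ⟨Pool.Agent.Q19.JL.Iv_fin k (hX1.trans ((le_max_left _ _).trans hX)),
      h2 X ((le_max_right _ _).trans hX), h1 X ((le_max_left _ _).trans hX)⟩

end Pool.Agent.Results.MP_7e5527_ag.SolvableCoordinates
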