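import Pool.Agent.N495.TS.GenB
import Pool.Agent.N524.TS.SERRE
import Pool.Agent.N495.GO.Main

/-!
# MP_7e5527_ag: uniform lower bounds for the Galois orbits of the points in Hecke orbits, for almost all
invariants of all heights

For `M = GL₂` and `Γ\X⁺ = Y(1)ⁿ` the set `Σ` of the problem consists of the points all of whose coordinates
are singular invariants (CM) or invariants of curves isogenous to the given curve `E` (the Hecke orbit of
`j(E)`). All proofs of statements of this kind by the method of Pila and Zannier need lower bounds for the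
degrees of the points of `Σ`, in terms of the degrees of the isogenies; those known depend on the
height of the given point `x`.

Let `k` be a number field. The invariants `j ≠ 0, 1728` in `k`, of ALL heights, are ordered by the product
`radical j` of the norms of the primes (not dividing six) at which `j` reduces to `0`, `1728` or `∞`; there
are `X ^ (2 / 3 + o(1))` with `radical j ≤ X`.

**Theorem.** There is a set `J` of invariants in `k` which contains all but a proportion `X ^ (-ν)` of the
invariants with `radical j ≤ X`, such that for EVERY finite extension `K` of `k`, all elliptic curves `E`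
and `E'` over `K` with `j(E)` in `J`, and EVERY isogeny `E → E'` over `K` with cyclic kernel of order `N`:

* `N ≤ [k(j(E')) : k] ²`, and the prime divisors of `N` are less than `[k(j(E')) : k]`;
* `N ≤ [k(j(E')) : k]` if `[k(j(E')) : k] ^ (4 [k : ℚ])` is at most the height of `j(E)`.

The bounds do not depend on `K`, and not on `j(E)`, its height, or `k`. So the points `j'` of the Hecke
orbit of `j ∈ J` with `[k(j') : k] ≤ d` are related to `j` by cyclic isogenies of degree at most `d ²`; no
other element of `k` is in this Hecke orbit. (`K` is arbitrary, so this covers all isogenies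
over the algebraic closure.)

Proof. (a) For almost all `j` and all curves over `k` of invariant `j` the image of the Galois group in the
automorphism group of `E[n]` contains all automorphisms of determinant `1` for all `n` prime to a prime `p`
and all powers `n` of `p` (engine `Pool.Agent.Q19.SU` of helper19 and helper304, and Serre's lemma; see
MP_160b6c_nt.AlmostAllProducts). (b) `E` is a twist of a curve over `k`, and `E'` is a twist of a curve over
`M = k(j(E'))`. So there is a homomorphism `f` from `E(k̄)` onto `E'(k̄)`, with `E` over `k` and `E'` over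
`M`, with cyclic kernel of order `N`, which commutes with an open subgroup of the Galois group of `M`. Let
`g` be its conjugate by an element of the Galois group of `M`, and `h` the homomorphism with
`h (f x) = N x`. As `θ = h ∘ g` commutes with some powers of the two transvections it is an integer on
`E[n]`, for all prime powers `n`. (c) Therefore `f` and `g` have the same kernel: if `θ = c` on `E[ℓ^(2a)]`,
where `ℓ^a` is the largest power of `ℓ` dividing `N`, then `ℓ^(a+1)` does not divide `c`, else `g` kills
`E[ℓ]`. So the kernel of `f` is stable over `M`. (d) The conjugates over `k` of a cyclic subgroup of order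
`n > 1` of `E` are at least `n + 1`, if `n` is as in (a).
-/

set_option autoImplicit false

open NumberField IsDedekindDomain
open scoped Classical

namespace Pool.Agent.Results.MP_7e5527_ag.UniformGaloisOrbits

/-- The curve `y² = x³ + Ax + B` over `K`. -/
def curve {K : Type} [Field K] (A B : K) : WeierstrassCurve K := ⟨0, 0, 0, A, B⟩

/-- The group of its points over the algebraic closure of `K`. -/
abbrev Points {K : Type} [Field K] (A B : K) : Type :=
  ((curve A B).baseChange (AlgebraicClosure K)).toAffine.Point

/-- The action of an automorphism `σ` of the algebraic closure over `K` on the points. -/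
noncomputable def galois {K : Type} [Field K] (A B : K)
    (σ : AlgebraicClosure K ≃ₐ[K] AlgebraicClosure K) : Points A B →+ Points A B :=
  WeierstrassCurve.Affine.Point.map (σ : AlgebraicClosure K →ₐ[K] AlgebraicClosure K)

/-- The invariant of `y² = x³ + Ax + B`. -/
noncomputable def jInvariant {K : Type} [Field K] (A B : K) : K :=
  6912 * A ^ 3 / (4 * A ^ 3 + 27 * B ^ 2)

/-- the product of the norms of the primes not dividing six at which `j` reduces to `0`, `1728` or
`∞` -/
noncomputable def radical {K : Type} [Field K] [NumberField K] (j : K) : ℝ :=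
  ∏ᶠ v ∈ {v : HeightOneSpectrum (𝓞 K) | v.valuation K 6 = 1 ∧
    (v.valuation K j ≠ 1 ∨ v.valuation K (j - 1728) ≠ 1)}, (Ideal.absNorm v.asIdeal : ℝ)

/-- the invariants `j ≠ 0, 1728`, of whatever height, with `radical j ≤ X` -/
def Invariants (K : Type) [Field K] [NumberField K] (X : ℝ) : Set K :=
  {j | j ≠ 0 ∧ j ≠ 1728 ∧ radical j ≤ X}

/-- The property of an isogeny over `K` with cyclic kernel of order `N`, from `y² = x³ + Ax + B` to
`y² = x³ + A'x + B'`: a homomorphism of the groups of points over the algebraic closure which is
surjective, commutes with the Galois group, and has a cyclic kernel of order `N`. -/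
def IsCyclicIsogeny {K : Type} [Field K] {A B A' B' : K} (N : ℕ) (f : Points A B →+ Points A' B') :
    Prop :=
  Function.Surjective f ∧
    (∀ (σ : AlgebraicClosure K ≃ₐ[K] AlgebraicClosure K) (P : Points A B),
      f (galois A B σ P) = galois A' B' σ (f P)) ∧
    IsAddCyclic f.ker ∧ Nat.card f.ker = N

/-- the degree of `k(a)` over `k` -/
noncomputable def degree (k : Type) [Field k] {K : Type} [Field K] [Algebra k K] (a : K) : ℕ :=
  Module.finrank k (IntermediateField.adjoin k {a})

/-- For all finite extensions `K` of `k`, all elliptic curves `E` and `E'` over `K` with `j(E)` in `J` and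
all isogenies `E → E'` over `K` with cyclic kernel of order `N`, lower bounds for the degree of `k(j(E'))`
over `k`: it is larger than the prime divisors of `N`, at least the square root of `N`, and at least `N` if
its power with exponent `4 [k : ℚ]` is at most the (relative, multiplicative) height of `j(E)`. -/
def HasLargeGaloisOrbits (k : Type) [Field k] [NumberField k] (J : Set k) : Prop :=
  ∀ (K : Type) [Field K] [NumberField K] [Algebra k K] [FiniteDimensional k K]
    (A B A' B' : K) (j : k) (N : ℕ) (f : Points A B →+ Points A' B'),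
    4 * A ^ 3 + 27 * B ^ 2 ≠ 0 → 4 * A' ^ 3 + 27 * B' ^ 2 ≠ 0 →
    j ∈ J → jInvariant A B = algebraMap k K j → 0 < N → IsCyclicIsogeny N f →
      (∀ l : ℕ, l.Prime → l ∣ N → l < degree k (jInvariant A' B')) ∧
      N ≤ degree k (jInvariant A' B') ^ 2 ∧
      ((degree k (jInvariant A' B') : ℝ) ^ (4 * Module.finrank ℚ k) ≤ Height.mulHeight₁ j →
        N ≤ degree k (jInvariant A' B'))

theorem inv_eq (K : Type) [Field K] [NumberField K] (X : ℝ) :
    Invariants K X = Pool.Agent.Q19.JL.Iv K X := by
  ext j
  constructor
  · rintro ⟨h0, h1, h2⟩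
    refine ⟨h0, h1, ?_⟩
    rw [← Pool.Agent.Q19.JL.rad_eq h0 h1]
    exact h2
  · rintro ⟨h0, h1, h2⟩
    refine ⟨h0, h1, ?_⟩
    rw [← Pool.Agent.Q19.JL.rad_eq h0 h1] at h2
    exact h2

/-- **Theorem.** -/
theorem result (k : Type) [Field k] [NumberField k] :
    ∃ J : Set k, HasLargeGaloisOrbits k J ∧
      (∃ ν X₀ : ℝ, 0 < ν ∧ ∀ X : ℝ, X₀ ≤ X →
        (({j | j ∈ Invariants k X ∧ j ∉ J} : Set k).ncard : ℝ) ≤
          X ^ (-ν) * (Invariants k X).ncard) ∧
      ∀ δ : ℝ, 0 < δ → ∃ X₀ : ℝ, ∀ X : ℝ, X₀ ≤ X → (Invariants k X).Finite ∧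
        X ^ (2 / 3 - δ) ≤ ((Invariants k X).ncard : ℝ) ∧
        ((Invariants k X).ncard : ℝ) ≤ X ^ (2 / 3 + δ) := by
  refine ⟨{j | Pool.Agent.N495.TS.LJk j ∧ Pool.Agent.Q19.SU.AllSLn (1 / 2) j}, ?_, ?_, ?_⟩
  · intro K _ _ _ _ A B A' B' j N f hD hD' hj hjv hN ⟨hf, hfe, hcyc, hcard⟩
    obtain ⟨y', hy'⟩ := hcyc.exists_generator
    have hgen : ∀ x, f x = 0 ↔ x ∈ AddSubgroup.zmultiples (y' : Points A B) := by
      intro x
      constructor
      · intro hx
        obtain ⟨m, hm⟩ := AddSubgroup.mem_zmultiples_iff.1 (hy' ⟨x, hx⟩)
        refine AddSubgroup.mem_zmultiples_iff.2 ⟨m, ?_⟩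
        have := congrArg Subtype.val hm
        simpa using this
      · intro hx
        obtain ⟨m, rfl⟩ := AddSubgroup.mem_zmultiples_iff.1 hx
        have h0 : f (y' : Points A B) = 0 := y'.2
        rw [map_zsmul, h0]
        exact zsmul_zero m
    have hord : addOrderOf (y' : Points A B) = N := by
      rw [← hcard, ← addOrderOf_eq_card_of_forall_mem_zmultiples hy', AddSubgroup.addOrderOf_coe]
    have hfin : IsOfFinAddOrder (y' : Points A B) := by
      rw [← addOrderOf_pos_iff, hord]
      exact hN
    obtain ⟨A₀, B₀, M, y₀, h0, hj0, hM, hfr, hy0, hst⟩ :=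
      Pool.Agent.N495.GO.go_main k K hD hD' hj.1 hjv f hf hfe hgen hfin
    have hL := hj.1.2.2 A₀ B₀ h0 hj0
    have hdeg : Module.finrank k M = degree k (jInvariant A' B') := hfr
    replace hy0 : addOrderOf y₀ = N := hy0.trans hord
    have hfin0 : IsOfFinAddOrder y₀ := by
      rw [← addOrderOf_pos_iff, hy0]
      exact hN
    refine ⟨?_, ?_, ?_⟩
    · intro l hl hlN
      have h1 := Pool.Agent.N495.TS.cy_prime' hL M hst hfin0 hl (by rw [hy0]; exact hlN)
      rw [hdeg] at h1
      omega
    · have h1 := Pool.Agent.N495.TS.cy_all' hL M hst hfin0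
      rw [hdeg, hy0] at h1
      exact h1
    · intro hH
      rw [← hdeg] at hH
      have h1 := Pool.Agent.N495.TS.cy_small' hL M hst hfin0 (by
        intro n hn hnd
        refine hj.2 A₀ B₀ h0 hj0 n hn (Or.inr (Or.inl ?_))
        have hd : 0 < Module.finrank k M := Module.finrank_pos
        have hdR : (0 : ℝ) < Module.finrank k M := by exact_mod_cast hd
        have hNR : (0 : ℝ) < n := by exact_mod_cast hn
        have e1 : Real.log n ≤ 2 * Real.log (Module.finrank k M) := by
          have e2 : (n : ℝ) ≤ (Module.finrank k M : ℝ) ^ 2 := by exact_mod_cast hnd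
          have e3 := Real.log_le_log hNR e2
          rw [Real.log_pow] at e3
          push_cast at e3
          exact e3
        have e4 := Real.log_le_log (by positivity) hH
        rw [Real.log_pow] at e4
        have e5 : Real.log (Height.mulHeight₁ j) = Pool.Agent.W223.AK.ht j := by
          rw [← Pool.Agent.Q19.SU.logH]
          rfl
        rw [e5] at e4
        push_cast at e4
        have e6 : (0 : ℝ) ≤ Module.finrank ℚ k := Nat.cast_nonneg _
        nlinarith)
      rw [hdeg, hy0] at h1
      exact h1
  · obtain ⟨ν, X₀, hν, -, h⟩ := Pool.Agent.Q19.SU.n_prop k (1 / 2) 1 (by norm_num)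
    refine ⟨ν, X₀, hν, fun X hX => ?_⟩
    rw [inv_eq]
    refine h X hX _ (fun j hj => hj.1) fun j hj hcon => hj.2 ⟨?_, hcon.1⟩
    refine Pool.Agent.N495.TS.ljk_of Pool.Agent.N524.TS.t_SERRE hj.1.1 hj.1.2.1 hcon.1 ?_
    have h1 := hcon.2.1
    have h2 := hcon.2.2
    linarith
  · intro δ hδ
    obtain ⟨X1, hX1, h1⟩ := Pool.Agent.Q19.JL.Iv_upper k δ hδ
    obtain ⟨X2, hX2, h2⟩ := Pool.Agent.Q19.JL.Iv_lower k δ hδ
    refine ⟨max X1 X2, fun X hX => ?_⟩
    rw [inv_eq]
    exact ⟨Pool.Agent.Q19.JL.Iv_fin k (hX1.trans ((le_max_left _ _).trans hX)),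
      h2 X ((le_max_right _ _).trans hX), h1 X ((le_max_left _ _).trans hX)⟩

end Pool.Agent.Results.MP_7e5527_ag.UniformGaloisOrbits
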